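import Pool.Agent.MP_fcd29e_an.H11.CS

/-! The kernel of the differentials of the quadrics through the embedded bundle. -/

set_option autoImplicit false

open Set Filter Topology Pool.Agent.MP_fcd29e_an.H11

namespace Pool.Agent.MP_fcd29e_an.H80

namespace CV2

theorem eval_smul {α : Type} {g : MvPolynomial α ℂ} {k : ℕ} (hg : g.IsHomogeneous k) (c : ℂ)
    (P : α → ℂ) : MvPolynomial.eval (c • P) g = c ^ k * MvPolynomial.eval P g := by
  rw [MvPolynomial.eval_eq, MvPolynomial.eval_eq, Finset.mul_sum]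
  refine Finset.sum_congr rfl fun s hs => ?_
  simp only [Pi.smul_apply, smul_eq_mul, mul_pow]
  rw [Finset.prod_mul_distrib, Finset.prod_pow_eq_pow_sum, ← hg.degree_eq_sum_deg_support hs]
  ring

theorem eval_aeval {α β : Type} (σ : β → MvPolynomial α ℂ) (f : MvPolynomial β ℂ) (P : α → ℂ) :
    MvPolynomial.eval P (MvPolynomial.aeval σ f) =
      MvPolynomial.eval (fun o => MvPolynomial.eval P (σ o)) f :=
  MvPolynomial.aeval_bind₁ P σ f

theorem diff_eval {α : Type} [Fintype α] (f : MvPolynomial α ℂ) :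
    Differentiable ℂ fun Q : α → ℂ => MvPolynomial.eval Q f := fun Q =>
  (AnalyticOnNhd.eval_mvPolynomial f Q (mem_univ Q)).differentiableAt

/-- The derivative in the direction of a curve. -/
theorem fd_eq {X F : Type} [NormedAddCommGroup X] [NormedSpace ℂ X] [NormedAddCommGroup F]
    [NormedSpace ℂ F] {R : X → F} {γ : ℂ → X} {γ' q : X} {t : ℂ} {h : ℂ → F} {h' : F}
    (hq : γ t = q) (hR : DifferentiableAt ℂ R q) (hγ : HasDerivAt γ γ' t)
    (he : ∀ᶠ y in 𝓝 t, h y = R (γ y)) (hh : HasDerivAt h h' t) : fderiv ℂ R q γ' = h' := by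
  subst hq
  exact ((hR.hasFDerivAt.comp_hasDerivAt t hγ).congr_of_eventuallyEq he).unique hh

theorem mem_pair {α : Type} [Fintype α] {T : Submodule ℂ (α → ℂ)} (hT : Module.finrank ℂ T ≤ 2)
    {P P' v : α → ℂ} (h0 : P ≠ 0) (h1 : ∀ c : ℂ, P' ≠ c • P) (hP : P ∈ T) (hP' : P' ∈ T)
    (hv : v ∈ T) : ∃ b a : ℂ, b • P + a • P' = v := by
  have li : LinearIndependent ℂ ![P, P'] :=
    (LinearIndependent.pair_iff' h0).2 fun c hc => h1 c hc.symm
  have h2 := finrank_span_eq_card li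
  rw [Fintype.card_fin, Matrix.range_cons_cons_empty] at h2
  have h3 : Submodule.span ℂ {P, P'} = T :=
    Submodule.eq_of_le_of_finrank_le
      (Submodule.span_le.2 (insert_subset hP (singleton_subset_iff.2 hP'))) (hT.trans h2.ge)
  rw [← h3] at hv
  exact Submodule.mem_span_pair.1 hv

end CV2

open CV2 in
theorem sv2 (hGR : SGR) (hVL : SVL) : SV2 := by
  intro ι _ m n _ ε wi α _ _ _ Adm Y σ hn hX hC J D P e w φ hA i z hz x hx0 hxx
  have hm : 1 ≤ m := Nat.one_le_iff_ne_zero.2 (NeZero.ne m)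
  have hnD : n ≤ 8 * m * n := Nat.le_mul_of_pos_left n (by omega)
  have hD : 1 ≤ 8 * m * n := hn.trans hnD
  obtain ⟨aP, ae, -, hY, hI, hAd, -⟩ := hA.an i z hz
  have hs := hC.maps _ hY
  have hP0 : P i z ≠ 0 := fun h => hC.nz (h ▸ hY)
  have he0 : e i z x ≠ 0 := fun h =>
    hx0 (hX.inj _ hs _ _ _ hAd (h.trans (map_zero (e i z)).symm))
  obtain ⟨-, -, av, k1, k2, k3⟩ :=
    hVL.eq α ε _ hD (P i z, e i z x) (P i z, e i z x) hP0 he0
  have dP : HasDerivAt (P i) (deriv (P i) z) z := aP.differentiableAt.hasDerivAt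
  have de : HasDerivAt (fun y => e i y x) (deriv (e i) z x) z := by
    simpa using ae.differentiableAt.hasDerivAt.clm_apply (hasDerivAt_const z x)
  have dγ : HasDerivAt (fun y => (P i y, e i y x)) (deriv (P i) z, deriv (e i) z x) z :=
    dP.prodMk de
  have hd : deriv (fun y => vs (8 * m * n) (P i y, e i y x)) z =
      fderiv ℂ (vs (8 * m * n)) (P i z, e i z x) (deriv (P i) z, deriv (e i) z x) :=
    (HasFDerivAt.comp_hasDerivAt (f := fun y => (P i y, e i y x)) z
      av.differentiableAt.hasFDerivAt dγ).deriv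
  have hnear : ∀ᶠ y in 𝓝 z, y ∈ D i := (hA.op i).mem_nhds hz
  generalize deriv (e i) z x = e' at de dγ hd
  rw [hd]
  refine ⟨fun u hu => ?_, fun v hv => ?_⟩
  · obtain ⟨a, ha⟩ := k1 ((deriv (P i) z, e') - (0, e i z u)) (by rw [map_sub, hu, k2, sub_self])
    exact hI a (by simpa using ha)
  obtain ⟨S, hS⟩ : ∃ S : Set ((α → ℂ) × (ε → ℂ)), S = {q | ∃ j, ∃ z' ∈ D j, ∃ x', x' ≠ 0 ∧
    B x' x' = 0 ∧ q = (P j z', e j z' x')} := ⟨_, rfl⟩
  have hmem : ∀ y ∈ D i, (P i y, e i y x) ∈ S := fun y hy => hS ▸ ⟨i, y, hy, x, hx0, hxx, rfl⟩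
  obtain ⟨dq, hv0, r1, r2, r3⟩ := hVL.ker α ε _ hD S (P i z, e i z x) (hmem z hz) hP0 he0 v
    fun Q hQ => hv Q fun Z ⟨j, z', hz', x', h1, h2, h3⟩ =>
      hQ Z ⟨_, hS ▸ ⟨j, z', hz', x', h1, h2, rfl⟩, h3.symm⟩
  obtain ⟨T, hT, hT'⟩ := hC.tang _ hY
  obtain ⟨b, a, hab⟩ := mem_pair hT hP0 hI
    (hT' _ fun f _ hf => fd_eq (γ := fun c : ℂ => c • P i z) (t := 1) (h := fun _ => 0)
      (one_smul _ _) (diff_eval f _) (by simpa using (hasDerivAt_id (1 : ℂ)).smul_const (P i z))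
      ((eventually_ne_nhds one_ne_zero).mono fun c hc => (hf _ (hC.cone c hc _ hY)).symm)
      (hasDerivAt_const _ _))
    (hT' _ fun f _ hf => fd_eq (h := fun _ => 0) rfl (diff_eval f _) dP
      (hnear.mono fun y hy => (hf _ (hA.an i y hy).2.2.2.1).symm) (hasDerivAt_const _ _))
    (hT' _ fun f hf hf' => r2 n hnD f hf fun q hq => by
      rw [hS] at hq
      obtain ⟨j, z', hz', x', -, -, rfl⟩ := hq
      exact hf' _ (hA.an j z' hz').2.2.2.1)
  obtain ⟨dy, hdy⟩ : ∃ dy, dy = dq.2 - a • e' := ⟨_, rfl⟩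
  have hdq : dq = a • (deriv (P i) z, e') + b • (P i z, 0) + (0, dy) := by
    refine Prod.ext ?_ ?_
    · simp [← hab, add_comm]
    · simp [hdy]
  obtain ⟨u₀, hu₀⟩ := hX.rel _ hs _ _ _ hAd dy fun d hd f₁ f₂ h₁ h₂ l₁ l₂ hrel => by
    have g₁ := h₁.aeval σ hC.hom
    have g₂ := h₂.aeval σ hC.hom
    rw [← eval_aeval, ← eval_aeval, ← sub_eq_zero]
    have hvan : ∀ q ∈ S, MvPolynomial.eval q.1 (MvPolynomial.aeval σ f₁) * l₁ q.2 =
        MvPolynomial.eval q.1 (MvPolynomial.aeval σ f₂) * l₂ q.2 := fun q hq => by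
      rw [hS] at hq
      obtain ⟨j, z', hz', x', -, -, rfl⟩ := hq
      obtain ⟨-, -, -, hY', -, hAd', -⟩ := hA.an j z' hz'
      rw [eval_aeval, eval_aeval]
      exact hrel _ (hC.maps _ hY') _ _ _ hAd' x'
    have h3 := r1 (n * d) (by rw [mul_comm]; exact Nat.mul_le_mul_right n hd) _ _ g₁ g₂ l₁ l₂ hvan
    generalize MvPolynomial.aeval σ f₁ = p₁ at g₁ hvan h3 ⊢
    generalize MvPolynomial.aeval σ f₂ = p₂ at g₂ hvan h3 ⊢
    obtain ⟨R, hR⟩ : ∃ R : (α → ℂ) × (ε → ℂ) → ℂ, R = fun q =>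
      MvPolynomial.eval q.1 p₁ * l₁ q.2 - MvPolynomial.eval q.1 p₂ * l₂ q.2 := ⟨_, rfl⟩
    have dR : Differentiable ℂ R := by
      rw [hR]
      exact (((diff_eval p₁).comp differentiable_fst).mul
        (l₁.differentiable.comp differentiable_snd)).sub
        (((diff_eval p₂).comp differentiable_fst).mul (l₂.differentiable.comp differentiable_snd))
    have h0 := hvan _ (hmem z hz)
    have h4 : fderiv ℂ R (P i z, e i z x) (deriv (P i) z, e') = 0 :=
      fd_eq (h := fun _ => 0) rfl (dR _) dγ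
        (hnear.mono fun y hy => by rw [hR]; exact (sub_eq_zero.2 (hvan _ (hmem y hy))).symm)
        (hasDerivAt_const _ _)
    have h5 : fderiv ℂ R (P i z, e i z x) (P i z, 0) = 0 :=
      fd_eq (γ := fun c : ℂ => (c • P i z, e i z x)) (t := 1) (h := fun _ => 0)
        (by rw [one_smul]) (dR _)
        (by simpa using ((hasDerivAt_id (1 : ℂ)).smul_const (P i z)).prodMk
              (hasDerivAt_const (1 : ℂ) (e i z x)))
        (Eventually.of_forall fun c => by
          simp only [hR, eval_smul g₁, eval_smul g₂] at h0 ⊢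
          rw [mul_assoc, mul_assoc, h0, sub_self])
        (hasDerivAt_const _ _)
    have h6 : fderiv ℂ R (P i z, e i z x) (0, dy) =
        MvPolynomial.eval (P i z) p₁ * l₁ dy - MvPolynomial.eval (P i z) p₂ * l₂ dy :=
      fd_eq (γ := fun c : ℂ => (P i z, e i z x + c • dy)) (t := 0)
        (h := fun c => c * (MvPolynomial.eval (P i z) p₁ * l₁ dy -
          MvPolynomial.eval (P i z) p₂ * l₂ dy))
        (by rw [zero_smul, add_zero]) (dR _)
        (by simpa using (hasDerivAt_const (0 : ℂ) (P i z)).prodMk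
              (((hasDerivAt_id (0 : ℂ)).smul_const dy).const_add (e i z x)))
        (Eventually.of_forall fun c => by
          simp only [hR, map_add, map_smul, smul_eq_mul] at h0 ⊢
          linear_combination -h0)
        (by simpa using (hasDerivAt_id (0 : ℂ)).mul_const _)
    rw [← hR, hdq, map_add, map_add, map_smul, map_smul, h4, h5, h6] at h3
    simpa using h3
  obtain ⟨Q, c, hc, q1, q2⟩ := hX.quad _ hs _ _ _ hAd
  have h7 : Q (e i z x) dq.2 + Q dq.2 (e i z x) = 0 := r3 Q fun q hq => by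
    rw [hS] at hq
    obtain ⟨j, z', hz', x', -, h2, rfl⟩ := hq
    obtain ⟨-, -, -, hY', -, hAd', -⟩ := hA.an j z' hz'
    exact q1 _ (hC.maps _ hY') _ _ _ hAd' x' h2
  have h8 : Q e' (e i z x) + Q (e i z x) e' = 0 := by
    have h9 := (Q.hasFDerivAt.comp_hasDerivAt z de).clm_apply de
    refine (h9.congr_of_eventuallyEq (f₁ := fun _ => 0) ?_).unique (hasDerivAt_const _ _)
    filter_upwards [hnear] with y hy
    obtain ⟨-, -, -, hY', -, hAd', -⟩ := hA.an i y hy
    exact (q1 _ (hC.maps _ hY') _ _ _ hAd' x hxx).symm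
  have h10 : B x u₀ = 0 := by
    have h11 : dq.2 = a • e' + e i z u₀ := by rw [← hu₀, hdy, add_sub_cancel]
    have h12 := q2 x u₀
    rw [h11] at h7
    simp only [map_add, map_smul, add_apply, smul_apply,
      smul_eq_mul] at h7
    refine (mul_eq_zero.1 ?_).resolve_left hc
    linear_combination h7 - h12 - a * h8
  refine ⟨a, (b * (8 * m * n : ℕ)) • x + u₀, ?_, ?_⟩
  · rw [(hGR.bil ι x _ x 0).1, (hGR.bil ι _ u₀ x 0).2.2.1, (hGR.bil ι x x x _).2.2.2.1, hxx,
      (hGR.bil ι u₀ x x 0).1, h10, mul_zero, add_zero]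
  · have h13 := k2 (e i z x)
    have h14 : ((0 : α → ℂ), e i z ((b * (8 * m * n : ℕ)) • x + u₀)) =
        (b * (8 * m * n : ℕ)) • ((0 : α → ℂ), e i z x) + (0, dy) := by
      rw [hu₀]
      simp
    rw [← k2, h14, hv0, hdq]
    simp only [map_add, map_smul]
    rw [k3, h13, mul_smul, add_assoc]

end Pool.Agent.MP_fcd29e_an.H80
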